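import Pool.Agent.T9h36.N1.Spec

/-!
# Project NK, slope 1: piece N4
-/

set_option autoImplicit false

open Set
open scoped RealInnerProductSpace

namespace Pool.Agent.T9h24.N1

open Pool.Agent.T9h98.DC Pool.Agent.T9h98.NK Pool.Agent.T9h44.NK Pool.Agent.T9h46.NK
open Pool.Agent.T9h36.N1

theorem n4 : S_FACES → S_VF → S_INV → S_IOTA → S_TR → S_LOCC → S_C2 → S_N2 → S_N4 := by
  intro hF hVF hI hO hT hL hC2 hN2 m N hN hMK j
  induction j with
  | zero =>
    intro n hn P H hP hH hFew hS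
    exact hN2 n P H (by omega) hP hH (hMK n (by omega) P H hP hH hFew) hS
  | succ j ih =>
    intro n hn P H hP hH hFew hS
    obtain ⟨n', rfl⟩ : ∃ n', n = n' + 1 := ⟨n - 1, by omega⟩
    have hG : Good P H := hMK (n' + 1) (by omega) P H hP hH hFew
    have h1 : PT 1 H P := hN2 (n' + 1) P H (by omega) hP hH hG hS
    have hne : P.Nonempty := by
      obtain ⟨x, hx⟩ := hP.2
      exact ⟨x, interior_subset hx⟩
    obtain ⟨v₀, hv₀⟩ := ((hF (n' + 1 + 1) P hP.1).2.2.2.2.1 hne).2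
    -- the data at every vertex
    have hdat : ∀ v, Vx P v → ∃ (a : E (n' + 1 + 1)) (ι : E (n' + 1) →ₗᵢ[ℝ] E (n' + 1 + 1)),
        a ≠ 0 ∧ Sup P v a ∧ Ort a ι ∧ (∀ h ∈ H, h v = v → h a = a) := by
      intro v hv
      obtain ⟨a, ha, hs, hfix⟩ := hI (n' + 1 + 1) P v H hP.1 hv (exists_ne hP v) hH
      obtain ⟨ι, hι, -⟩ := hO (n' + 1) a ha
      exact ⟨a, ι, ha, hs, hι, hfix⟩
    by_contra hcon
    refine hC2 (n' + 1) P (by omega) hP ⟨v₀, hv₀⟩ fun v hv => ?_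
    obtain ⟨a, ι, ha, hs, hι, hfix⟩ := hdat v hv
    obtain ⟨t1, -, t3, t4, -⟩ := hT (n' + 1) P H v a ι hP hH hv hs ha hι hfix
    have hfig := (hVF (n' + 1) P v a ι hP hv hs ha hι).1
    have hg : Good (fig v a ι P) (figH H v ι) := hMK n' (by omega) _ _ hfig t1 (t4 m hFew)
    rcases hg.1 with h | h | h
    · exact absurd (t3 (j + 1) (fun w hw => vtrans h1 v w hv hw)
        (ih n' (by omega) _ _ hfig t1 (t4 m hFew) (Or.inl h))) hcon
    · exact absurd (t3 (j + 1) (fun w hw => vtrans h1 v w hv hw)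
        (ih n' (by omega) _ _ hfig t1 (t4 m hFew) (Or.inr h))) hcon
    · exact hL (n' + 1) P H v a ι (by omega) hP hH hv ⟨hs, ha, hι, hfix, hg⟩ h

end Pool.Agent.T9h24.N1
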